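import Pool.Agent.TH573.BF.Main

/-!
# Chowla's conjecture for all binary forms, for almost every modification of the Liouville function
on one extremely sparse set of primes

There is a set `Q` of primes, so sparse that the sum of the reciprocals of its members up to `y` is
`O((log* y)^2)` (`log*` is the iterated logarithm), with the following property. Let `g` be any
completely multiplicative function with values `1` and `-1`, for instance the Liouville function,
and choose the signs at the primes of `Q` at random. Almost surely the resulting completely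
multiplicative function `f`, which agrees with `g` at all primes outside `Q`, satisfies the
conclusion of Chowla's conjecture for ALL binary forms that are not a constant times a square, on
all lattice cosets of the problem, uniformly over all convex regions, and even with the weights of
any given sequence of bounded functions.

Method: on a row `v ≠ 0` the form is `v^D T(u / v)` up to a factor depending on `v`, and the roots
of this slice modulo a prime `q` not dividing `v` are those of `T` multiplied by `v`; hence the
moment method for thick sets of primes of helper220 (`Pool.Agent.H220M`, starting files) applies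
to all rows at the scale `X` at once, except for the few `v` with many prime factors in the window.
Thickness of the primes with a simple root is `Pool.Agent.TH573.SM.thick_sparse`, from Mertens'
theorem for the roots of an irreducible polynomial (`Pool.Agent.H474R2.GE.mertens_rho`, starting
files).
-/

set_option autoImplicit false

namespace Pool.Agent.Results.MP_d639b3_nt.BinaryFormsSparseModifications

open Finset Filter MeasureTheory Pool.Agent.H220M
open Pool.Agent.TH573.SM (tower)

open Classical in
theorem result : ∃ Q : Set ℕ, (∀ q ∈ Q, q.Prime) ∧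
    (∃ K : ℝ, ∀ n : ℕ, ∑ q ∈ (Icc 1 (tower n)).filter (fun q => q ∈ Q), (1 : ℝ) / q ≤ K * n ^ 2) ∧
    ∀ g : ℕ →*₀ ℤ, (∀ p : ℕ, p.Prime → g p = 1 ∨ g p = -1) →
    ∀ w : ℕ → ℤ → ℤ → ℝ, (∀ s u v, |w s u v| ≤ 1) →
    ∀ᵐ ω ∂coins, ∃! f : ℕ →*₀ ℤ, IsModif g Q ω f ∧
      ∀ (d : ℕ) (F : MvPolynomial (Fin 2) ℤ), F.IsHomogeneous d →
        (¬ ∃ (c : ℤ) (G : MvPolynomial (Fin 2) ℤ), F = MvPolynomial.C c * G ^ 2) →
        ∀ (s : ℕ) (N a b : ℤ), ∀ ε : ℝ, 0 < ε → ∃ X₀ : ℕ, ∀ X : ℕ, X₀ ≤ X →
          ∀ K : Set (ℝ × ℝ), Convex ℝ K →
          |∑ z ∈ (Icc (-(X : ℤ)) X ×ˢ Icc (-(X : ℤ)) X).filter (fun z : ℤ × ℤ =>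
              z.1 ≡ a [ZMOD N] ∧ z.2 ≡ b [ZMOD N] ∧ ((z.1 : ℝ), (z.2 : ℝ)) ∈ K),
            w s z.1 z.2 * ((f (MvPolynomial.eval ![z.1, z.2] F).natAbs : ℤ) : ℝ)| ≤
              ε * (X : ℝ) ^ 2 := by
  refine ⟨Pool.Agent.TH573.SM.sparse, fun q hq => hq.1, ?_, fun g hg w hw =>
    Pool.Agent.TH573.BF.main g hg w hw⟩
  obtain ⟨K, hK⟩ := Pool.Agent.TH573.SM.sparse_sum
  refine ⟨K, fun n => ?_⟩
  refine le_trans (Finset.sum_le_sum_of_subset_of_nonneg ?_ fun q _ _ => by positivity) (hK n)
  intro q hq
  rw [mem_filter, mem_Icc] at hq ⊢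
  obtain ⟨h1, hp, i, h2, h3⟩ := hq
  refine ⟨h1, i, ?_, hp, h2, h3⟩
  by_contra h
  have := Pool.Agent.TH573.SM.tower_strictMono.monotone (not_lt.1 h)
  omega

end Pool.Agent.Results.MP_d639b3_nt.BinaryFormsSparseModifications
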