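import Pool.Agent.TH823.PS.Fin4

/-!
# Chowla's conjecture in progressions for the polynomials `g(T) (a T + b)`, for all `b` outside a set with a power
saving, at most scales

From the starting files: the zero-free region inputs and the kernels (`Pool.Agent.W66`), the large sieve
(`Pool.Agent.Helper112`), the bounds on the minor arcs by Vaughan's identity (`Pool.Agent.W93`), the moments of
Weyl sums (`Pool.Agent.H373R2`), the Turan–Kubilius inequality (`Pool.Agent.Helper480`), Mertens' theorem.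
From Mathlib: `ArithmeticFunction.cardFactors m`: the number of prime factors of `m` with multiplicity;
`Finset.Icc u v`: the integers `n` with `u ≤ n ≤ v`; `v ≡ r [ZMOD q]`: congruence modulo `q`;
`Polynomial ℤ`: the polynomials with integer coefficients; `P.eval m`: the value at `m`.
-/

set_option autoImplicit false

namespace Pool.Agent.Results.MP_d639b3_nt.PowerSavingLinearFactor

open Finset

/-- Liouville's function on the integers: `(-1) ^ Ω(|m|)`, and `0` at `0` (as if `0` were omitted). -/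
def lam (m : ℤ) : ℤ := if m = 0 then 0 else (-1) ^ ArithmeticFunction.cardFactors m.natAbs

open Classical in
/-- The number of the elements of the finite set `S` with the property `E`. -/
noncomputable def num {α : Type} (S : Finset α) (E : α → Prop) : ℝ := ((S.filter E).card : ℝ)

open Classical in
/-- The property `P` holds at most scales: the set of the positive integers `N` with the property `P` has upper
logarithmic density at least `1 - ε`. Precisely, for arbitrarily large `R` the sum of `1 / N` over the `N ≤ R`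
without the property is at most `ε log R`. -/
def MostScales (ε : ℝ) (P : ℕ → Prop) : Prop :=
  ∀ R₀ : ℕ, ∃ R : ℕ, R₀ ≤ R ∧ ∑ N ∈ (Icc 1 R).filter (fun N => ¬ P N), (1 : ℝ) / N ≤ ε * Real.log R

/-- The sum of `λ (F v)` over the `v` with `|v| ≤ X` and `v ≡ r mod q`. -/
noncomputable def progSum (F : ℤ → ℤ) (q : ℕ) (r : ℤ) (X : ℕ) : ℤ :=
  ∑ v ∈ (Icc (-(X : ℤ)) X).filter (fun v => v ≡ r [ZMOD q]), lam (F v)

/-- The number `b` is good for `g` at the scale `N`: for all `a ≤ A`, all progressions `r mod q` with `q ≤ A` and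
all `X ≤ N`, the sum of `λ (g v * (a v + b))` over the `v` in the progression with `|v| ≤ X` is at most `ε N` in
absolute value. -/
def Good (A : ℕ) (ε : ℝ) (N : ℕ) (g : ℤ → ℤ) (b : ℤ) : Prop :=
  ∀ a : ℕ, 1 ≤ a → a ≤ A → ∀ q : ℕ, 1 ≤ q → q ≤ A → ∀ r : ℤ, ∀ X : ℕ, X ≤ N →
    |(progSum (fun v => g v * (a * v + b)) q r X : ℝ)| ≤ ε * N

/-- At the scale `N`: for every function `g : ℤ → ℤ` (e.g. every polynomial), for all `x` with
`N ^ (1 - δ) ≤ x ^ d ≤ A N`, where `d` is the degree of the polynomial `P`, and all `c` in `[-A N, A N]`, the numbers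
`b = c + P m` are good for `g` for all but `x / N ^ δ` of the `m ≤ x`. For `P = T`, `c = 0`, `x = N`: all but
`N ^ (1 - δ)` of the `b ≤ N` are good. -/
def LinearFactor (A : ℕ) (P : Polynomial ℤ) (ε δ : ℝ) (N : ℕ) : Prop :=
  ∀ g : ℤ → ℤ, ∀ x : ℕ, x ^ P.natDegree ≤ A * N → (N : ℝ) ^ (1 - δ) ≤ (x : ℝ) ^ P.natDegree →
    ∀ c : ℤ, |c| ≤ A * N →
      num (Icc 1 x) (fun m => ¬ Good A ε N g (c + P.eval (m : ℤ))) ≤ x * (N : ℝ) ^ (-δ)

lemma most_of {ε : ℝ} {P P' : ℕ → Prop} (h : Pool.Agent.TH823.PS.Most ε P) (hPP : ∀ N, P N → P' N) :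
    MostScales ε P' := by
  classical
  have h' : MostScales ε P := h
  intro R₀
  obtain ⟨R, hR, h1⟩ := h' R₀
  refine ⟨R, hR, le_trans ?_ h1⟩
  apply sum_le_sum_of_subset_of_nonneg
  · intro N hN
    simp only [mem_filter] at hN ⊢
    exact ⟨hN.1, fun h2 => hN.2 (hPP N h2)⟩
  · intro _ _ _; positivity

lemma num_le_sum {α β : Type} {S : Finset α} {E : α → Prop} (Es : Finset β) {F : β → α → Prop}
    (h : ∀ a ∈ S, E a → ∃ e ∈ Es, F e a) : num S E ≤ ∑ e ∈ Es, num S (F e) := by
  classical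
  unfold num
  rw [← Nat.cast_sum]
  apply Nat.cast_le.2
  refine le_trans ?_ card_biUnion_le
  apply card_le_card
  intro a ha
  rw [mem_filter] at ha
  obtain ⟨e, he, hF⟩ := h a ha.1 ha.2
  rw [mem_biUnion]
  exact ⟨e, he, mem_filter.2 ⟨ha.1, hF⟩⟩

lemma lam_mul (m n : ℤ) : lam (m * n) = lam m * lam n := by
  unfold lam
  by_cases hm : m = 0
  · simp [hm]
  by_cases hn : n = 0
  · simp [hn]
  rw [if_neg (mul_ne_zero hm hn), if_neg hm, if_neg hn, Int.natAbs_mul,
    ArithmeticFunction.cardFactors_mul (Int.natAbs_ne_zero.2 hm) (Int.natAbs_ne_zero.2 hn), pow_add]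

lemma lam_abs (m : ℤ) : |lam m| ≤ 1 := by
  unfold lam
  split_ifs
  · simp
  · rw [abs_pow]; simp

lemma lam_eq (m : ℤ) : (lam m : ℂ) = Pool.Agent.TH823.PS.evI Pool.Agent.H373R2.T7.liR m := by
  unfold lam Pool.Agent.TH823.PS.evI Pool.Agent.H373R2.T7.exI Pool.Agent.H373R2.T7.liR
  rcases lt_trichotomy m 0 with h | h | h
  · rw [if_neg h.ne, if_neg (by omega), if_pos (by omega), zero_add]
    have : m.natAbs = (-m).toNat := by omega
    rw [this]
    push_cast
    rfl
  · subst h
    simp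
  · rw [if_neg h.ne', if_pos (by omega), if_neg (by omega), add_zero]
    have : m.natAbs = m.toNat := by omega
    rw [this]
    push_cast
    rfl

/-- Let `P` be a nonconstant integer polynomial of degree `d` (e.g. `T`), `A ≥ 1` and `ε > 0`. There is a `δ > 0`
such that at most scales `N`, that is on a set of `N` of upper logarithmic density at least `1 - ε`, the following
holds for every polynomial (even every function) `g : ℤ → ℤ`, all `x` with `N ^ (1 - δ) ≤ x ^ d ≤ A N` and all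
`c` in `[-A N, A N]`: for all but `x / N ^ δ` of the `m ≤ x`, `b = c + P m` satisfies
`|∑ λ (g v * (a v + b))| ≤ ε N`, the sum over the `v ≡ r mod q` with `|v| ≤ X`, for all `a ≤ A`, `q ≤ A`, `r` and
`X ≤ N`. -/
theorem result (A : ℕ) (P : Polynomial ℤ) (hP : 1 ≤ P.natDegree) (ε : ℝ) (hε : 0 < ε) :
    ∃ δ : ℝ, 0 < δ ∧ MostScales ε (LinearFactor A P ε δ) := by
  classical
  obtain ⟨δ, hδ, h⟩ := Pool.Agent.TH823.PS.most_polys Pool.Agent.TH823.PS.nice_liR (3 * A) 1
    (fun i : Bool => if i then P else -P) (fun i => by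
      by_cases hi : i <;> simp [hi, hP, Polynomial.natDegree_neg]) (ε := min ε (ε / 4)) (by positivity)
  have hmin : min ε (ε / 4) = ε / 4 := min_eq_right (by linarith)
  rw [hmin] at h
  set T : ℕ := A * (A * A) * 2 with hT
  obtain ⟨N₁, hN₁⟩ : ∃ N₁ : ℕ, ∀ N : ℕ, N₁ ≤ N → (T : ℝ) ≤ (N : ℝ) ^ (δ / 2) := by
    have h1 : Filter.Tendsto (fun N : ℕ => (N : ℝ) ^ (δ / 2)) Filter.atTop Filter.atTop :=
      (tendsto_rpow_atTop (by positivity)).comp tendsto_natCast_atTop_atTop
    obtain ⟨N₁, h2⟩ := Filter.eventually_atTop.1 (h1.eventually_ge_atTop (T : ℝ))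
    exact ⟨N₁, h2⟩
  have h' : Pool.Agent.TH823.PS.Most ε (fun N => N₁ + 1 ≤ N ∧ ∀ i : Bool, Pool.Agent.TH823.PS.PolyG
      Pool.Agent.H373R2.T7.liR (3 * A) 1 (if i then P else -P) (ε / 4) δ N) := by
    intro R₀
    obtain ⟨R, hR, h1⟩ := h (N₁ + 1) (max R₀ 1)
    refine ⟨R, le_of_max_le_left hR, h1.trans ?_⟩
    have : 0 ≤ Real.log R := Real.log_natCast_nonneg R
    nlinarith
  refine ⟨δ / 2, by positivity, most_of h' fun N h2 => ?_⟩
  obtain ⟨hNN, hG⟩ := h2
  have hN1n : 1 ≤ N := by omega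
  have hN0 : (0 : ℝ) < N := by exact_mod_cast (by omega : 0 < N)
  have hN1 : (1 : ℝ) ≤ N := by exact_mod_cast hN1n
  have hG1 := hG true
  have hG2 := hG false
  simp only [if_true] at hG1
  simp only [Bool.false_eq_true, if_false] at hG2
  intro g x hx1 hx2 c hc
  have hx2' : (N : ℝ) ^ (1 - δ) ≤ (x : ℝ) ^ P.natDegree :=
    (Real.rpow_le_rpow_of_exponent_le hN1 (by linarith)).trans hx2
  have h3 : num (Icc 1 x) (fun m => ¬ Good A ε N g (c + P.eval (m : ℤ))) ≤
      ∑ e ∈ (Icc 1 A) ×ˢ ((Icc 1 A) ×ˢ (range A)),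
      num (Icc 1 x) (fun m => ¬ ∀ X : ℕ, X ≤ N →
        |(progSum (fun v => g v * (e.1 * v + (c + P.eval (m : ℤ)))) e.2.1 e.2.2 X : ℝ)| ≤ ε * N) := by
    apply num_le_sum
    intro m _ hm
    by_contra hcon
    apply hm
    intro a ha haA q hq hqA r X hX
    by_contra h4
    apply hcon
    refine ⟨(a, q, (r % q).toNat), ?_, fun h5 => h4 ?_⟩
    · rw [mem_product, mem_product, mem_Icc, mem_Icc, mem_range]
      refine ⟨⟨ha, haA⟩, ⟨hq, hqA⟩, ?_⟩
      have := Int.emod_lt_of_pos r (by exact_mod_cast hq : (0 : ℤ) < q)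
      have := Int.emod_nonneg r (by exact_mod_cast (by omega : q ≠ 0) : (q : ℤ) ≠ 0)
      simp only
      omega
    · have h6 := h5 X hX
      have h7 : progSum (fun v => g v * (a * v + (c + P.eval (m : ℤ)))) q r X =
          progSum (fun v => g v * (a * v + (c + P.eval (m : ℤ)))) q ((r % q).toNat : ℕ) X := by
        unfold progSum
        apply sum_congr _ fun _ _ => rfl
        ext v
        rw [mem_filter, mem_filter]
        have h8 : (((r % q).toNat : ℕ) : ℤ) = r % q :=
          Int.toNat_of_nonneg (Int.emod_nonneg r (by exact_mod_cast (by omega : q ≠ 0)))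
        rw [h8]
        have h9 : r % q ≡ r [ZMOD q] := Int.mod_modEq r q
        exact ⟨fun h => ⟨h.1, h.2.trans h9.symm⟩, fun h => ⟨h.1, h.2.trans h9⟩⟩
      rw [h7]
      exact h6
  refine h3.trans ?_
  have hprod : 0 ≤ (x : ℝ) * (N : ℝ) ^ (-δ) := by positivity
  refine (sum_le_sum (g := fun _ => 2 * ((x : ℝ) * (N : ℝ) ^ (-δ))) ?_).trans ?_
  · intro e he
    rw [mem_product, mem_product, mem_Icc, mem_Icc] at he
    refine le_trans (le_of_eq (by unfold num; congr!)) (Pool.Agent.TH823.PS.two_sided_at (ε := ε) hN1n hG1 hG2 hx1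
      hx2' hc he.1.1 he.1.2
      (fun v => if v ≡ (e.2.2 : ℤ) [ZMOD e.2.1] then (lam (g v) : ℂ) else 0) ?_
      (fun m => ¬ ∀ X : ℕ, X ≤ N →
        |(progSum (fun v => g v * (e.1 * v + (c + P.eval (m : ℤ)))) e.2.1 e.2.2 X : ℝ)| ≤ ε * N) ?_)
    · intro v
      split_ifs
      · rw [Complex.norm_intCast]
        exact_mod_cast lam_abs _
      · simp
    · intro m hm
      push Not at hm
      obtain ⟨X, hX, h4⟩ := hm
      refine ⟨X, hX, lt_of_lt_of_eq h4 ?_⟩
      rw [← Complex.norm_intCast]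
      congr 1
      unfold progSum
      push_cast
      rw [sum_filter]
      apply sum_congr rfl
      intro v _
      split_ifs
      · rw [lam_mul]
        push_cast
        rw [← lam_eq]
      · simp
  · rw [sum_const, nsmul_eq_mul]
    have h4 : ((((Icc 1 A) ×ˢ ((Icc 1 A) ×ˢ (range A))).card : ℕ) : ℝ) * 2 ≤ T := by
      rw [hT, card_product, card_product, Nat.card_Icc, card_range, Nat.add_sub_cancel]
      push_cast
      exact le_rfl
    have h5 : (N : ℝ) ^ (δ / 2) * (N : ℝ) ^ (-δ) = (N : ℝ) ^ (-(δ / 2)) := by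
      rw [← Real.rpow_add hN0]; congr 1; ring
    calc _ = ((((Icc 1 A) ×ˢ ((Icc 1 A) ×ˢ (range A))).card : ℕ) : ℝ) * 2 * ((x : ℝ) * (N : ℝ) ^ (-δ)) := by ring
      _ ≤ (N : ℝ) ^ (δ / 2) * ((x : ℝ) * (N : ℝ) ^ (-δ)) :=
          mul_le_mul_of_nonneg_right (h4.trans (hN₁ N (by omega))) hprod
      _ = _ := by rw [← h5]; ring

end Pool.Agent.Results.MP_d639b3_nt.PowerSavingLinearFactor
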