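import Mathlib
import Pool.Agent.TH575.CW.Lin

/-!
# Liouville's function at reducible quadratic polynomials, at all scales

For a primitive squarefree reducible quadratic polynomial `f` and a progression `𝒜`, the sums of
`λ(f(v))` over `𝒜(X)` are small at most dyadic scales of every window, and at every large scale they
are at most `(1 - δ) #𝒜(X)`.
-/

set_option autoImplicit false

namespace Pool.Agent.Results.MP_d639b3_nt.ReducibleQuadratics

open Finset Pool.Agent.TH575.CW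

/-- Liouville's function `λ(n) = (-1)^Ω(|n|)` of a (nonzero) integer -/
def lam (n : ℤ) : ℤ := (-1) ^ ArithmeticFunction.cardFactors n.natAbs

/-- the integers `v` with `|v| ≤ X`, `v ≡ a (mod N)` and `f(v) ≠ 0` -/
noncomputable def pts (f : Polynomial ℤ) (a N : ℤ) (X : ℝ) : Finset ℤ :=
  (Icc (-⌊X⌋) ⌊X⌋).filter (fun v => N ∣ v - a ∧ f.eval v ≠ 0)

/-- the sum of `λ(f(v))` over these `v` -/
noncomputable def S (f : Polynomial ℤ) (a N : ℤ) (X : ℝ) : ℝ :=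
  ∑ v ∈ pts f a N X, (lam (f.eval v) : ℝ)

lemma half (α γ N : ℕ) (β δ a : ℤ) (hα : 1 ≤ α) (hγ : 1 ≤ γ) (hN : 1 ≤ N)
    (hdet : 0 < (α : ℤ) * δ - β * γ) (ε : ℝ) (hε : 0 < ε) :
    ∃ C : ℝ, ∀ J : ℕ, ∃ X0 : ℝ, ∀ X : ℝ, X0 ≤ X →
      ∑ i ∈ (Icc 1 J).filter (fun i => ε * (X / 2 ^ i) < |US α β γ δ a N ⌊X / 2 ^ i⌋₊|),
        1 / (i : ℝ) ≤ C := by
  obtain ⟨h, hh⟩ := Int.eq_ofNat_of_zero_le hdet.le
  have hh1 : 1 ≤ h := by
    have : (0 : ℤ) < h := by rw [← hh]; exact hdet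
    exact_mod_cast this
  obtain ⟨c, K, hK, hUS⟩ := US_TS α γ N β δ a h hα hγ hN hh.symm
  have hag : 0 < α * γ := Nat.mul_pos hα hγ
  have hag' : (0 : ℝ) < ((α * γ : ℕ) : ℝ) := by exact_mod_cast hag
  obtain ⟨C, hC⟩ := windows Lm 0 Lm_ok Lm_E h (α * γ * N) hh1 (Nat.mul_pos hag hN)
    (ε / (2 * ((α * γ : ℕ) : ℝ))) (by positivity)
  refine ⟨C, fun J => ?_⟩
  obtain ⟨y0, hy0⟩ := hC J
  refine ⟨y0 + 1 + 2 ^ (J + 1) * K / ε, fun X hX => ?_⟩
  have hKe : 0 ≤ 2 ^ (J + 1) * K / ε := by positivity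
  have hX0 : 0 ≤ X := by
    have : (0 : ℝ) ≤ y0 := by positivity
    linarith
  have hF : y0 ≤ ⌊X⌋₊ := Nat.le_floor (by linarith)
  have hy : y0 ≤ α * γ * ⌊X⌋₊ := hF.trans (Nat.le_mul_of_pos_left _ hag)
  refine le_trans (sum_le_sum_of_subset_of_nonneg ?_ (fun i _ _ => by positivity))
    (hy0 _ hy Lm Lm_ok c).1
  intro i hi
  rw [mem_filter, mem_Icc] at hi ⊢
  obtain ⟨⟨hi1, hiJ⟩, hi2⟩ := hi
  refine ⟨⟨hi1, hiJ⟩, ?_⟩
  have h2i : (0 : ℝ) < 2 ^ i := by positivity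
  have hfl : ⌊X / 2 ^ i⌋₊ = ⌊X⌋₊ / 2 ^ i := by
    have := Nat.floor_div_natCast X (2 ^ i)
    rw [← this]
    push_cast
    rfl
  rw [hfl] at hi2
  have h3 := hUS ⌊X⌋₊ (2 ^ i) Nat.one_le_two_pow
  have h4 : K ≤ ε / 2 * (X / 2 ^ i) := by
    have h5 : 2 ^ (J + 1) * K / ε ≤ X := by
      have : (0 : ℝ) ≤ y0 := by positivity
      linarith
    rw [div_le_iff₀ hε] at h5
    have h6 : (2 : ℝ) ^ i ≤ 2 ^ J := pow_le_pow_right₀ (by norm_num) hiJ
    have h7 : ε / 2 * (X / 2 ^ i) = (X * ε) / (2 * 2 ^ i) := by field_simp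
    rw [h7, le_div_iff₀ (by positivity)]
    have h8 : (2 : ℝ) ^ (J + 1) = 2 * 2 ^ J := by rw [pow_succ]; ring
    rw [h8] at h5
    nlinarith [mul_le_mul_of_nonneg_left h6 hK]
  have h5 : ε / (2 * ((α * γ : ℕ) : ℝ)) * (((α * γ * ⌊X⌋₊ : ℕ) : ℝ) / 2 ^ i) ≤
      ε / 2 * (X / 2 ^ i) := by
    have h6 : ((⌊X⌋₊ : ℕ) : ℝ) ≤ X := Nat.floor_le hX0
    have h7 : ε / (2 * ((α * γ : ℕ) : ℝ)) * (((α * γ * ⌊X⌋₊ : ℕ) : ℝ) / 2 ^ i) =
        ε / 2 * (((⌊X⌋₊ : ℕ) : ℝ) / 2 ^ i) := by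
      rw [Nat.cast_mul (α * γ)]
      field_simp
    rw [h7]
    gcongr
  linarith

lemma US_sign (α β γ δ a N : ℤ) (hα : α ≠ 0) (hγ : γ ≠ 0) (Y : ℕ) :
    US α β γ δ a N Y = US (α.natAbs : ℤ) (α.sign * β) (γ.natAbs : ℤ) (γ.sign * δ) a (N.natAbs : ℤ) Y := by
  unfold US
  apply sum_congr rfl
  intro t _
  have key : ∀ s x y : ℤ, s ≠ 0 → lamZ ((s * t + x) * y) = lamZ (((s.natAbs : ℤ) * t + s.sign * x) * y) := by
    intro s x y hs
    rcases lt_or_gt_of_ne hs with h | h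
    · rw [Int.sign_eq_neg_one_of_neg h, Int.ofNat_natAbs_of_nonpos h.le, ← lamZ_neg]
      congr 1
      ring
    · rw [Int.sign_eq_one_of_pos h, Int.natAbs_of_nonneg h.le, one_mul]
  have h1 : lamZ ((α * t + β) * (γ * t + δ)) = lamZ (((α.natAbs : ℤ) * t + α.sign * β) *
      ((γ.natAbs : ℤ) * t + γ.sign * δ)) := by
    rw [key α β _ hα, mul_comm, key γ δ _ hγ, mul_comm]
  have h2 : N ∣ (t : ℤ) - a ↔ (N.natAbs : ℤ) ∣ (t : ℤ) - a := by rw [Int.natAbs_dvd]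
  by_cases h3 : N ∣ (t : ℤ) - a
  · rw [if_pos h3, if_pos (h2.1 h3), h1]
  · rw [if_neg h3, if_neg (fun h => h3 (h2.2 h))]

lemma halfZ (α β γ δ a N : ℤ) (hα : α ≠ 0) (hγ : γ ≠ 0) (hN : N ≠ 0) (hdet : α * δ ≠ β * γ)
    (ε : ℝ) (hε : 0 < ε) :
    ∃ C : ℝ, ∀ J : ℕ, ∃ X0 : ℝ, ∀ X : ℝ, X0 ≤ X →
      ∑ i ∈ (Icc 1 J).filter (fun i => ε * (X / 2 ^ i) < |US α β γ δ a N ⌊X / 2 ^ i⌋₊|),
        1 / (i : ℝ) ≤ C := by
  have e1 : ∀ Y : ℕ, US α β γ δ a N Y = US (α.natAbs : ℤ) (α.sign * β) (γ.natAbs : ℤ)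
      (γ.sign * δ) a (N.natAbs : ℤ) Y := fun Y => US_sign α β γ δ a N hα hγ Y
  have a1 : 1 ≤ α.natAbs := Nat.one_le_iff_ne_zero.2 (Int.natAbs_ne_zero.2 hα)
  have a2 : 1 ≤ γ.natAbs := Nat.one_le_iff_ne_zero.2 (Int.natAbs_ne_zero.2 hγ)
  have a3 : 1 ≤ N.natAbs := Nat.one_le_iff_ne_zero.2 (Int.natAbs_ne_zero.2 hN)
  have e2 : (α.natAbs : ℤ) * (γ.sign * δ) - α.sign * β * γ.natAbs =
      α.sign * γ.sign * (α * δ - β * γ) := by
    have b1 : (α.natAbs : ℤ) = α.sign * α := by rw [Int.sign_mul_self_eq_natAbs]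
    have b2 : (γ.natAbs : ℤ) = γ.sign * γ := by rw [Int.sign_mul_self_eq_natAbs]
    rw [b1, b2]
    ring
  have e3 : (α.natAbs : ℤ) * (γ.sign * δ) - α.sign * β * γ.natAbs ≠ 0 := by
    rw [e2]
    have c1 : α.sign ≠ 0 := by rwa [Ne, Int.sign_eq_zero_iff_zero]
    have c2 : γ.sign ≠ 0 := by rwa [Ne, Int.sign_eq_zero_iff_zero]
    exact mul_ne_zero (mul_ne_zero c1 c2) (sub_ne_zero.2 hdet)
  simp only [e1]
  rcases lt_or_gt_of_ne e3 with h | h
  · obtain ⟨C, hC⟩ := half γ.natAbs α.natAbs N.natAbs (γ.sign * δ) (α.sign * β) a a2 a1 a3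
      (by linarith) ε hε
    refine ⟨C, fun J => ?_⟩
    obtain ⟨X0, hX0⟩ := hC J
    refine ⟨X0, fun X hX => ?_⟩
    have := hX0 X hX
    simp only [US_swap (γ.natAbs : ℤ)] at this
    exact this
  · exact half α.natAbs γ.natAbs N.natAbs (α.sign * β) (γ.sign * δ) a a1 a2 a3 h ε hε

lemma sum_sym (g : ℤ → ℝ) (m : ℕ) :
    ∑ t ∈ Icc (-(m : ℤ)) m, g t = g 0 + ∑ t ∈ Icc 1 m, (g (t : ℤ) + g (-(t : ℤ))) := by
  induction m with
  | zero => simp
  | succ m ih =>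
    have h1 : Icc (-((m + 1 : ℕ) : ℤ)) ((m + 1 : ℕ) : ℤ) =
        insert (-((m + 1 : ℕ) : ℤ)) (insert ((m + 1 : ℕ) : ℤ) (Icc (-(m : ℤ)) m)) := by
      ext t
      simp only [mem_Icc, mem_insert]
      omega
    rw [h1, sum_insert, sum_insert, ih, sum_Icc_succ_top (by omega)]
    · ring
    · simp only [mem_Icc]
      omega
    · simp only [mem_Icc, mem_insert]
      omega

lemma zeros (f : Polynomial ℤ) (hf : f ≠ 0) (s : Finset ℤ) :
    #(s.filter (fun v => f.eval v = 0)) ≤ f.natDegree := by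
  refine le_trans (card_le_card (t := f.roots.toFinset) ?_)
    ((Multiset.toFinset_card_le _).trans (Polynomial.card_roots' f))
  intro v hv
  rw [mem_filter] at hv
  rw [Multiset.mem_toFinset, Polynomial.mem_roots hf]
  exact hv.2

section main

variable (α β γ δ : ℤ)

/-- the quadratic polynomial -/
noncomputable def qd : Polynomial ℤ :=
  (Polynomial.C α * Polynomial.X + Polynomial.C β) * (Polynomial.C γ * Polynomial.X + Polynomial.C δ)

lemma qd_eval (v : ℤ) : (qd α β γ δ).eval v = (α * v + β) * (γ * v + δ) := by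
  simp [qd]

lemma S_le (hα : α ≠ 0) (hγ : γ ≠ 0) (a N : ℤ) (hdeg : (qd α β γ δ).natDegree = 2) (X : ℝ) (hX : 0 ≤ X) :
    |S (qd α β γ δ) a N X| ≤ |US α β γ δ a N ⌊X⌋₊| + |US (-α) β (-γ) δ (-a) N ⌊X⌋₊| + 3 := by
  have hne : qd α β γ δ ≠ 0 := by
    intro h
    rw [h] at hdeg
    simp at hdeg
  set m := ⌊X⌋₊ with hm
  have hfl : ⌊X⌋ = (m : ℤ) := (Int.natCast_floor_eq_floor hX).symm
  set g : ℤ → ℝ := fun t => if N ∣ t - a then (lamZ ((α * t + β) * (γ * t + δ)) : ℝ) else 0 with hg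
  have h1 : S (qd α β γ δ) a N X = ∑ t ∈ Icc (-(m : ℤ)) m, g t -
      ∑ t ∈ Icc (-(m : ℤ)) m, (if (qd α β γ δ).eval t = 0 then g t else 0) := by
    unfold S pts
    rw [hfl, sum_filter, ← sum_sub_distrib]
    apply sum_congr rfl
    intro t _
    by_cases h2 : (qd α β γ δ).eval t = 0
    · rw [if_neg (fun h => h.2 h2), if_pos h2, sub_self]
    · rw [if_neg (c := (qd α β γ δ).eval t = 0) h2, sub_zero, hg]
      by_cases h3 : N ∣ t - a
      · simp only [h3, h2, true_and, not_false_eq_true, if_true, ne_eq]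
        rw [qd_eval]
        rfl
      · simp only [h3, false_and, if_false]
  have hg1 : ∀ t, |g t| ≤ 1 := by
    intro t
    simp only [hg]
    split_ifs
    · exact (lamZ_abs _).le
    · simp
  have h2 : |∑ t ∈ Icc (-(m : ℤ)) m, (if (qd α β γ δ).eval t = 0 then g t else 0)| ≤ 2 := by
    rw [← sum_filter]
    refine (abs_sum_le_sum_abs _ _).trans ?_
    refine (sum_le_card_nsmul _ _ 1 (fun t _ => hg1 t)).trans ?_
    have := zeros (qd α β γ δ) hne (Icc (-(m : ℤ)) m)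
    rw [hdeg] at this
    simp only [nsmul_eq_mul, mul_one]
    exact_mod_cast this
  have h3 : ∑ t ∈ Icc (-(m : ℤ)) m, g t = g 0 + US α β γ δ a N m + US (-α) β (-γ) δ (-a) N m := by
    rw [sum_sym, sum_add_distrib, ← add_assoc]
    congr 1
    unfold US
    apply sum_congr rfl
    intro t _
    simp only [hg]
    have e1 : N ∣ -(t : ℤ) - a ↔ N ∣ (t : ℤ) - -a := by
      have : -(t : ℤ) - a = -((t : ℤ) - -a) := by ring
      rw [this, dvd_neg]
    have e2 : (α * -(t : ℤ) + β) * (γ * -(t : ℤ) + δ) = (-α * (t : ℤ) + β) * (-γ * (t : ℤ) + δ) := by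
      ring
    rw [e2]
    by_cases h4 : N ∣ -(t : ℤ) - a
    · rw [if_pos h4, if_pos (e1.1 h4)]
    · rw [if_neg h4, if_neg (fun h => h4 (e1.2 h))]
  rw [h1, h3]
  have k1 := hg1 0
  rw [abs_le] at k1 h2 ⊢
  have k2 := abs_le.1 (le_refl |US α β γ δ a N m|)
  have k3 := abs_le.1 (le_refl |US (-α) β (-γ) δ (-a) N m|)
  constructor <;> linarith [k1.1, k1.2, h2.1, h2.2, k2.1, k2.2, k3.1, k3.2]

lemma partA (hα : α ≠ 0) (hγ : γ ≠ 0) (hdet : α * δ ≠ β * γ) (a N : ℤ) (hN : N ≠ 0)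
    (hdeg : (qd α β γ δ).natDegree = 2) (ε : ℝ) (hε : 0 < ε) :
    ∃ C : ℝ, ∀ J : ℕ, ∃ X0 : ℝ, ∀ X : ℝ, X0 ≤ X →
      ∑ i ∈ (Icc 1 J).filter (fun i => ε * (X / 2 ^ i) < |S (qd α β γ δ) a N (X / 2 ^ i)|),
        1 / (i : ℝ) ≤ C := by
  obtain ⟨C1, hC1⟩ := halfZ α β γ δ a N hα hγ hN hdet (ε / 4) (by positivity)
  obtain ⟨C2, hC2⟩ := halfZ (-α) β (-γ) δ (-a) N (neg_ne_zero.2 hα) (neg_ne_zero.2 hγ) hN
    (by intro h; apply hdet; linarith) (ε / 4) (by positivity)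
  refine ⟨C1 + C2, fun J => ?_⟩
  obtain ⟨X1, hX1⟩ := hC1 J
  obtain ⟨X2, hX2⟩ := hC2 J
  refine ⟨|X1| + |X2| + 6 * 2 ^ J / ε, fun X hX => ?_⟩
  have hp : 0 ≤ 6 * 2 ^ J / ε := by positivity
  have hX0 : 0 ≤ X := by linarith [abs_nonneg X1, abs_nonneg X2]
  have h1 := hX1 X (by linarith [le_abs_self X1, abs_nonneg X2])
  have h2 := hX2 X (by linarith [le_abs_self X2, abs_nonneg X1])
  refine le_trans ?_ (add_le_add h1 h2)
  rw [← sum_union_inter]
  refine le_trans (sum_le_sum_of_subset_of_nonneg ?_ (fun i _ _ => by positivity))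
    (le_add_of_nonneg_right (sum_nonneg (fun i _ => by positivity)))
  intro i hi
  rw [mem_filter, mem_Icc] at hi
  rw [mem_union, mem_filter, mem_filter, mem_Icc]
  by_contra hcon
  push Not at hcon
  obtain ⟨hc1, hc2⟩ := hcon
  have g1 := hc1 hi.1
  have g2 := hc2 hi.1
  have g3 := S_le α β γ δ hα hγ a N hdeg (X / 2 ^ i) (by positivity)
  have g4 : (3 : ℝ) ≤ ε / 2 * (X / 2 ^ i) := by
    have h5 : 6 * 2 ^ J / ε ≤ X := by linarith [abs_nonneg X1, abs_nonneg X2]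
    rw [div_le_iff₀ hε] at h5
    have h6 : (2 : ℝ) ^ i ≤ 2 ^ J := pow_le_pow_right₀ (by norm_num) hi.1.2
    have h7 : ε / 2 * (X / 2 ^ i) = (X * ε) / (2 * 2 ^ i) := by field_simp
    rw [h7, le_div_iff₀ (by positivity)]
    linarith
  linarith [hi.2]

lemma pts_mono (f : Polynomial ℤ) (a N : ℤ) (X Y : ℝ) (h : X ≤ Y) : pts f a N X ⊆ pts f a N Y := by
  unfold pts
  apply filter_subset_filter
  have := Int.floor_le_floor h
  apply Icc_subset_Icc
  · linarith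
  · exact this

lemma pts_card_le (f : Polynomial ℤ) (a N : ℤ) (X : ℝ) (hX : 0 ≤ X) :
    (#(pts f a N X) : ℝ) ≤ 2 * X + 1 := by
  have h1 : #(pts f a N X) ≤ #(Icc (-⌊X⌋) ⌊X⌋) := card_filter_le _ _
  rw [Int.card_Icc] at h1
  have h2 : 0 ≤ ⌊X⌋ := Int.floor_nonneg.2 hX
  have h3 : ((#(pts f a N X) : ℕ) : ℤ) ≤ 2 * ⌊X⌋ + 1 := by omega
  have h4 : ((#(pts f a N X) : ℕ) : ℝ) ≤ 2 * (⌊X⌋ : ℝ) + 1 := by exact_mod_cast h3
  linarith [Int.floor_le X]

lemma pts_card_ge (f : Polynomial ℤ) (hf : f ≠ 0) (a N : ℤ) (hN : N ≠ 0) (X : ℝ) (hX : 0 ≤ X) :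
    X / N.natAbs - 2 - f.natDegree ≤ #(pts f a N X) := by
  set M := N.natAbs with hM
  have hM1 : 1 ≤ M := Nat.one_le_iff_ne_zero.2 (Int.natAbs_ne_zero.2 hN)
  have hM0 : (0 : ℤ) < M := by exact_mod_cast hM1
  set m := ⌊X⌋₊ with hm
  have hfl : ⌊X⌋ = (m : ℤ) := (Int.natCast_floor_eq_floor hX).symm
  -- the points a0 + M j
  have h1 : m / M ≤ #((Icc (-⌊X⌋) ⌊X⌋).filter (fun v => N ∣ v - a)) := by
    rw [← card_range (m / M)]
    refine card_le_card_of_injOn (fun j : ℕ => a % M + M * j) ?_ ?_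
    · intro j hj
      have hj' : j < m / M := by simpa using hj
      have h2 : M * (m / M) ≤ m := Nat.mul_div_le m M
      have h3 : ((M * (m / M) : ℕ) : ℤ) ≤ m := by exact_mod_cast h2
      have h4 := Int.emod_nonneg a hM0.ne'
      have h5 := Int.emod_lt_of_pos a hM0
      have h6 : (M : ℤ) * j ≤ M * ((m / M : ℕ) : ℤ) - M := by
        have : (j : ℤ) + 1 ≤ ((m / M : ℕ) : ℤ) := by exact_mod_cast hj'
        nlinarith
      rw [Nat.cast_mul] at h3
      have h7 : (0 : ℤ) ≤ M * j := by positivity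
      rw [coe_filter, Set.mem_setOf_eq, mem_Icc, hfl]
      refine ⟨⟨?_, ?_⟩, ?_⟩
      · show -(m : ℤ) ≤ a % M + M * j
        have : (0 : ℤ) ≤ m := by positivity
        linarith
      · show a % M + M * j ≤ (m : ℤ)
        linarith
      · show N ∣ a % M + M * j - a
        rw [← Int.natAbs_dvd, ← hM]
        have := Int.emod_add_mul_ediv a M
        refine ⟨j - a / M, ?_⟩
        linarith
    · intro j _ j' _ hjj
      have : (M : ℤ) * j = M * j' := by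
        have h8 : a % (M : ℤ) + M * j = a % M + M * j' := hjj
        linarith
      have := mul_left_cancel₀ hM0.ne' this
      exact_mod_cast this
  have h2 : #((Icc (-⌊X⌋) ⌊X⌋).filter (fun v => N ∣ v - a)) ≤ #(pts f a N X) +
      #(((Icc (-⌊X⌋) ⌊X⌋)).filter (fun v => f.eval v = 0)) := by
    refine le_trans (card_le_card ?_) (card_union_le _ _)
    intro v hv
    unfold pts
    rw [mem_union, mem_filter, mem_filter]
    rw [mem_filter] at hv
    by_cases h3 : f.eval v = 0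
    · exact Or.inr ⟨hv.1, h3⟩
    · exact Or.inl ⟨hv.1, hv.2, h3⟩
  have h3 := zeros f hf (Icc (-⌊X⌋) ⌊X⌋)
  have h4 : m / M ≤ #(pts f a N X) + f.natDegree := by omega
  have h5 : ((m / M : ℕ) : ℝ) ≤ #(pts f a N X) + f.natDegree := by exact_mod_cast h4
  have h6 : (m : ℝ) / M - 1 ≤ ((m / M : ℕ) : ℝ) := by
    have := Nat.lt_div_mul_add (a := m) (b := M) (by omega)
    have h7 : (m : ℝ) < ((m / M : ℕ) : ℝ) * M + M := by exact_mod_cast this
    have h8 : (0 : ℝ) < M := by exact_mod_cast hM1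
    rw [sub_le_iff_le_add, div_le_iff₀ h8]
    linarith
  have h7 : X / M - 1 ≤ (m : ℝ) / M := by
    have h8 : (1 : ℝ) ≤ M := by exact_mod_cast hM1
    have h9 : X - 1 ≤ m := by
      have := Nat.lt_floor_add_one X
      linarith
    have h10 : (X - 1) / M ≤ (m : ℝ) / M := by gcongr
    have h11 : 1 / (M : ℝ) ≤ 1 := by
      rw [div_le_iff₀ (by linarith)]
      linarith
    rw [sub_div] at h10
    linarith
  linarith

lemma partB (hα : α ≠ 0) (hγ : γ ≠ 0) (hdet : α * δ ≠ β * γ) (a N : ℤ) (hN : N ≠ 0)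
    (hdeg : (qd α β γ δ).natDegree = 2) :
    ∃ κ : ℝ, 0 < κ ∧ ∃ X0 : ℝ, ∀ X : ℝ, X0 ≤ X →
      |S (qd α β γ δ) a N X| ≤ (1 - κ) * #(pts (qd α β γ δ) a N X) := by
  have hne : qd α β γ δ ≠ 0 := by
    intro h
    rw [h] at hdeg
    simp at hdeg
  set M : ℝ := (N.natAbs : ℝ) with hM
  have hM1 : 1 ≤ M := by
    have : 1 ≤ N.natAbs := Nat.one_le_iff_ne_zero.2 (Int.natAbs_ne_zero.2 hN)
    rw [hM]
    exact_mod_cast this
  obtain ⟨C, hC⟩ := partA α β γ δ hα hγ hdet a N hN hdeg (1 / (2 * M)) (by positivity)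
  obtain ⟨J, hJ⟩ := harm C
  obtain ⟨X1, hX1⟩ := hC J
  refine ⟨1 / (8 * M * 2 ^ J), by positivity, |X1| + 40 * M * 2 ^ J, fun X hX => ?_⟩
  have hJp : (0 : ℝ) < 2 ^ J := by positivity
  have hXbig : 40 * M * 2 ^ J ≤ X := by linarith [abs_nonneg X1]
  have hX0 : 0 ≤ X := le_trans (by positivity) hXbig
  have h1 := hX1 X (by linarith [le_abs_self X1, (by positivity : 0 ≤ 40 * M * 2 ^ J)])
  -- a good scale
  obtain ⟨i, hi, hgood⟩ : ∃ i ∈ Icc 1 J, |S (qd α β γ δ) a N (X / 2 ^ i)| ≤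
      1 / (2 * M) * (X / 2 ^ i) := by
    by_contra hcon
    push Not at hcon
    have h2 : (Icc 1 J).filter (fun i => 1 / (2 * M) * (X / 2 ^ i) <
        |S (qd α β γ δ) a N (X / 2 ^ i)|) = Icc 1 J := by
      apply filter_true_of_mem
      intro i hi
      exact hcon i hi
    rw [h2] at h1
    linarith
  rw [mem_Icc] at hi
  set f := qd α β γ δ with hf
  set X' := X / 2 ^ i with hX'
  have hi2 : (2 : ℝ) ^ i ≤ 2 ^ J := pow_le_pow_right₀ (by norm_num) hi.2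
  have hi0 : (1 : ℝ) ≤ 2 ^ i := one_le_pow₀ (by norm_num)
  have hX'0 : 0 ≤ X' := by positivity
  have hX'X : X' ≤ X := by
    rw [hX']
    exact div_le_self hX0 hi0
  have hX'J : X / 2 ^ J ≤ X' := by
    rw [hX']
    gcongr
  have hsub := pts_mono f a N X' X hX'X
  have h3 : S f a N X = S f a N X' + ∑ v ∈ pts f a N X \ pts f a N X', (lam (f.eval v) : ℝ) := by
    unfold S
    rw [add_comm, sum_sdiff hsub]
  have h4 : |∑ v ∈ pts f a N X \ pts f a N X', (lam (f.eval v) : ℝ)| ≤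
      (#(pts f a N X) : ℝ) - #(pts f a N X') := by
    refine (abs_sum_le_sum_abs _ _).trans ?_
    refine (sum_le_card_nsmul _ _ 1 (fun t _ => (lamZ_abs _).le)).trans ?_
    rw [card_sdiff_of_subset hsub, nsmul_eq_mul, mul_one, Nat.cast_sub (card_le_card hsub)]
  have h5 := pts_card_ge f hne a N hN X' hX'0
  have h6 := pts_card_le f a N X hX0
  rw [hdeg] at h5
  have h7 : |S f a N X| ≤ |S f a N X'| + ((#(pts f a N X) : ℝ) - #(pts f a N X')) := by
    rw [h3]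
    exact (abs_add_le _ _).trans (by linarith)
  have h8 : 1 / (8 * M * 2 ^ J) * (#(pts f a N X) : ℝ) ≤ 1 / (8 * M * 2 ^ J) * (2 * X + 1) := by
    gcongr
  have h9 : 1 / (8 * M * 2 ^ J) * (2 * X + 1) ≤ (X / 2 ^ J) / (4 * M) + 1 := by
    have e1 : 1 / (8 * M * 2 ^ J) * (2 * X + 1) = (X / 2 ^ J) / (4 * M) + 1 / (8 * M * 2 ^ J) := by
      field_simp
      ring
    rw [e1]
    have e2 : 1 / (8 * M * 2 ^ J) ≤ 1 := by
      rw [div_le_iff₀ (by positivity)]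
      have : (1 : ℝ) ≤ 2 ^ J := one_le_pow₀ (by norm_num)
      nlinarith
    linarith
  have h10 : (X / 2 ^ J) / (4 * M) ≤ X' / (4 * M) := by gcongr
  have h11 : 5 ≤ X' / (4 * M) := by
    have : 10 * (4 * M) ≤ X' := by
      refine le_trans ?_ hX'J
      rw [le_div_iff₀ hJp]
      linarith
    rw [le_div_iff₀ (by positivity)]
    nlinarith
  have h12 : X' / M = 4 * (X' / (4 * M)) := by field_simp
  have h13 : 1 / (2 * M) * X' = 2 * (X' / (4 * M)) := by field_simp; ring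
  rw [h13] at hgood
  rw [h12] at h5
  push_cast at h5
  rw [sub_mul, one_mul]
  linarith

end main

/-- reduction to products of linear forms -/
lemma linear_factors (f : Polynomial ℤ) (hprim : f.IsPrimitive) (hsq : Squarefree f)
    (hdeg : f.natDegree = 2) (hred : ¬ Irreducible f) :
    ∃ α β γ δ : ℤ, f = qd α β γ δ ∧ α ≠ 0 ∧ γ ≠ 0 ∧ α * δ ≠ β * γ := by
  have hnu : ¬ IsUnit f := by
    intro h
    have := Polynomial.natDegree_eq_zero_of_isUnit h
    omega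
  have hf0 : f ≠ 0 := hprim.ne_zero
  rw [irreducible_iff] at hred
  push Not at hred
  obtain ⟨g, h, hgh, hg, hh⟩ := hred hnu
  have hg0 : g ≠ 0 := by rintro rfl; simp at hgh; exact hf0 hgh
  have hh0 : h ≠ 0 := by rintro rfl; simp at hgh; exact hf0 hgh
  have hd : g.natDegree + h.natDegree = 2 := by
    rw [← Polynomial.natDegree_mul hg0 hh0, ← hgh, hdeg]
  have key : ∀ u v : Polynomial ℤ, f = u * v → ¬ IsUnit u → u.natDegree ≠ 0 := by
    intro u v huv hu h0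
    rw [Polynomial.natDegree_eq_zero] at h0
    obtain ⟨k, rfl⟩ := h0
    apply hu
    exact Polynomial.isUnit_C.2 (hprim k (Dvd.intro _ huv.symm))
  have hg1 := key g h hgh hg
  have hh1 := key h g (by rw [hgh, mul_comm]) hh
  have hgd : g.natDegree = 1 := by omega
  have hhd : h.natDegree = 1 := by omega
  have eg := Polynomial.eq_X_add_C_of_natDegree_le_one hgd.le
  have eh := Polynomial.eq_X_add_C_of_natDegree_le_one hhd.le
  refine ⟨g.coeff 1, g.coeff 0, h.coeff 1, h.coeff 0, ?_, ?_, ?_, ?_⟩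
  · unfold qd
    rw [← eg, ← eh]
    exact hgh
  · intro h0
    have : g.leadingCoeff = 0 := by
      rw [Polynomial.leadingCoeff, hgd]
      exact h0
    exact hg0 (Polynomial.leadingCoeff_eq_zero.1 this)
  · intro h0
    have : h.leadingCoeff = 0 := by
      rw [Polynomial.leadingCoeff, hhd]
      exact h0
    exact hh0 (Polynomial.leadingCoeff_eq_zero.1 this)
  · intro hdet
    have hgp : g.IsPrimitive := fun r hr => hprim r (hr.trans ⟨h, hgh⟩)
    have hhp : h.IsPrimitive := fun r hr => hprim r (hr.trans ⟨g, by rw [hgh, mul_comm]⟩)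
    have e1 : Polynomial.C (h.coeff 1) * g = Polynomial.C (g.coeff 1) * h := by
      conv_lhs => rw [eg]
      conv_rhs => rw [eh]
      rw [mul_add, mul_add, ← mul_assoc, ← mul_assoc, ← Polynomial.C_mul, ← Polynomial.C_mul,
        ← Polynomial.C_mul, ← Polynomial.C_mul, hdet, mul_comm (h.coeff 1) (g.coeff 1),
        mul_comm (h.coeff 1) (g.coeff 0)]
    have e2 := congrArg Polynomial.content e1
    rw [Polynomial.content_C_mul, Polynomial.content_C_mul, hgp.content_eq_one,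
      hhp.content_eq_one, mul_one, mul_one] at e2
    have e3 : Associated (h.coeff 1) (g.coeff 1) := by
      rw [← normalize_eq_normalize_iff_associated]
      exact e2
    have hg10 : g.coeff 1 ≠ 0 := by
      intro h0
      have : g.leadingCoeff = 0 := by
        rw [Polynomial.leadingCoeff, hgd]
        exact h0
      exact hg0 (Polynomial.leadingCoeff_eq_zero.1 this)
    have hdvd : g * g ∣ f := by
      rw [Int.associated_iff] at e3
      rcases e3 with e3 | e3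
      · rw [e3] at e1
        have e4 := mul_left_cancel₀ (by rwa [Ne, Polynomial.C_eq_zero]) e1
        rw [hgh, ← e4]
      · rw [e3, Polynomial.C_neg] at e1
        have e4 : Polynomial.C (g.coeff 1) * (-g) = Polynomial.C (g.coeff 1) * h := by
          rw [← e1]; ring
        have e5 := mul_left_cancel₀ (by rwa [Ne, Polynomial.C_eq_zero]) e4
        rw [hgh, ← e5]
        exact ⟨-1, by ring⟩
    exact hg (hsq g hdvd)

/-- Let `f` be a primitive, squarefree, reducible polynomial of degree `2` and `v ≡ a (mod N)` a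
progression. For every `ε` there is `C` such that in every window `X / 2 ^ i`, `1 ≤ i ≤ J`, at a
large scale `X`, the bad `i` satisfy `∑ 1/i ≤ C`; and at every large scale `X` the sum is at most
`(1 - κ)` times the number of its terms, for some `κ > 0`. -/
theorem result (f : Polynomial ℤ) (hprim : f.IsPrimitive) (hsq : Squarefree f)
    (hdeg : f.natDegree = 2) (hred : ¬ Irreducible f) (a N : ℤ) (hN : N ≠ 0) :
    (∀ ε : ℝ, 0 < ε → ∃ C : ℝ, ∀ J : ℕ, ∃ X0 : ℝ, ∀ X : ℝ, X0 ≤ X →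
      ∑ i ∈ (Icc 1 J).filter (fun i => ε * (X / 2 ^ i) < |S f a N (X / 2 ^ i)|), 1 / (i : ℝ) ≤ C) ∧
    ∃ κ : ℝ, 0 < κ ∧ ∃ X0 : ℝ, ∀ X : ℝ, X0 ≤ X → |S f a N X| ≤ (1 - κ) * #(pts f a N X) := by
  obtain ⟨α, β, γ, δ, rfl, hα, hγ, hdet⟩ := linear_factors f hprim hsq hdeg hred
  exact ⟨fun ε hε => partA α β γ δ hα hγ hdet a N hN hdeg ε hε,
    partB α β γ δ hα hγ hdet a N hN hdeg⟩

end Pool.Agent.Results.MP_d639b3_nt.ReducibleQuadratics
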